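import Pool.Agent.Q85.VL.Defs2

/-!
Project VL of helper85, job VL-16: a threshold of nearly critical size, by helper224
-/

set_option autoImplicit false

open MeasureTheory Set Metric Filter Topology
open scoped ContDiff
open H459R3.NS Pool.Agent.W268.NS Pool.Agent.Q67.VD

namespace Pool.Agent.Q224.VL

open Pool.Agent.Q85.VL

/-- `s (1 + |log s|)` -/
noncomputable def ph (s : ℝ) : ℝ := s * (1 + |Real.log s|)

theorem ph_pos {s : ℝ} (hs : 0 < s) : 0 < ph s := mul_pos hs (by positivity)

theorem ph_mono {s s' : ℝ} (hs : 0 < s) (h : s ≤ s') : ph s ≤ ph s' := by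
  have hs' : 0 < s' := hs.trans_le h
  unfold ph
  rcases le_total 1 s with h1 | h1
  · have l0 : 0 ≤ Real.log s := Real.log_nonneg h1
    have l1 : Real.log s ≤ Real.log s' := Real.log_le_log hs h
    rw [abs_of_nonneg l0, abs_of_nonneg (l0.trans l1)]
    have : (0 : ℝ) ≤ 1 + Real.log s' := by linarith
    nlinarith
  · have l0 : Real.log s ≤ 0 := Real.log_nonpos hs.le h1
    rw [abs_of_nonpos l0]
    -- `log (s' / s) ≤ s' / s - 1`
    have hlog : Real.log s' - Real.log s ≤ s' / s - 1 := by
      rw [← Real.log_div hs'.ne' hs.ne']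
      exact Real.log_le_sub_one_of_pos (by positivity)
    have h2 : s * (Real.log s' - Real.log s) ≤ s' - s := by
      have := mul_le_mul_of_nonneg_left hlog hs.le
      have e : s * (s' / s - 1) = s' - s := by field_simp
      linarith
    rcases le_total 1 s' with h3 | h3
    · have l1 : 0 ≤ Real.log s' := Real.log_nonneg h3
      rw [abs_of_nonneg l1]
      -- `s (1 - log s) ≤ 1 ≤ s'`
      have h4 : -Real.log s ≤ s⁻¹ - 1 := by
        rw [← Real.log_inv]
        exact Real.log_le_sub_one_of_pos (by positivity)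
      have h5 : s * (1 + -Real.log s) ≤ 1 := by
        have := mul_le_mul_of_nonneg_left h4 hs.le
        have e : s * (s⁻¹ - 1) = 1 - s := by field_simp
        linarith
      nlinarith
    · have l1 : Real.log s' ≤ 0 := Real.log_nonpos hs'.le h3
      rw [abs_of_nonpos l1]
      nlinarith

theorem F_anti {M s s' : ℝ} (hM : 0 ≤ M) (hs : 0 < s) (h : s ≤ s') :
    M / ph s' ^ 2 ≤ M / ph s ^ 2 := by
  have h1 := ph_pos hs
  have h2 := ph_mono hs h
  gcongr

/-- the radial function -/
noncomputable def hr (M : ℝ) (y : V) : ℝ := M / ph ‖y‖ ^ 2 / ‖y‖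

theorem hr_nonneg {M : ℝ} (hM : 0 ≤ M) (y : V) : 0 ≤ hr M y := by unfold hr; positivity

theorem int_log : IntegrableOn (fun s : ℝ => (s * (1 - Real.log s) ^ 2)⁻¹) (Ioc 0 1) := by
  have hpos : ∀ s : ℝ, 0 < s → s ≤ 1 → 0 < 1 - Real.log s := fun s hs h1 => by
    have := Real.log_nonpos hs.le h1
    linarith
  have ha : ∀ i : ℕ, (0 : ℝ) < 1 / ((i : ℝ) + 1) := fun i => by positivity
  have ha1 : ∀ i : ℕ, 1 / ((i : ℝ) + 1) ≤ 1 := fun i => by
    rw [div_le_one (by positivity)]
    have : (0 : ℝ) ≤ i := by positivity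
    linarith
  have hcont : ∀ i : ℕ, ContinuousOn (fun s : ℝ => (s * (1 - Real.log s) ^ 2)⁻¹)
      (Icc (1 / ((i : ℝ) + 1)) 1) := by
    intro i s hs
    have h0 : 0 < s := (ha i).trans_le hs.1
    have h1 := hpos s h0 hs.2
    refine ContinuousAt.continuousWithinAt ?_
    have hl : ContinuousAt Real.log s := Real.continuousAt_log h0.ne'
    exact ContinuousAt.inv₀ (continuousAt_id.mul ((continuousAt_const.sub hl).pow 2))
      (by positivity)
  refine integrableOn_Ioc_of_intervalIntegral_norm_bounded_left (I := 1)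
    (a := fun i : ℕ => 1 / ((i : ℝ) + 1)) (l := atTop) (fun i => ?_)
    tendsto_one_div_add_atTop_nhds_zero_nat (Eventually.of_forall fun i => ?_)
  · exact ((hcont i).integrableOn_Icc).mono_set Ioc_subset_Icc_self
  · have e1 : ∫ s in Ioc (1 / ((i : ℝ) + 1)) 1, ‖(s * (1 - Real.log s) ^ 2)⁻¹‖
        = ∫ s in Ioc (1 / ((i : ℝ) + 1)) 1, (s * (1 - Real.log s) ^ 2)⁻¹ := by
      refine setIntegral_congr_fun measurableSet_Ioc fun s hs => ?_
      have h0 : 0 < s := (ha i).trans hs.1
      exact Real.norm_of_nonneg (by positivity)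
    have hderiv : ∀ s ∈ uIcc (1 / ((i : ℝ) + 1)) 1,
        HasDerivAt (fun s : ℝ => (1 - Real.log s)⁻¹) ((s * (1 - Real.log s) ^ 2)⁻¹) s := by
      intro s hs
      rw [uIcc_of_le (ha1 i)] at hs
      have h0 : 0 < s := (ha i).trans_le hs.1
      have h1 := hpos s h0 hs.2
      have h2 := ((Real.hasDerivAt_log h0.ne').const_sub 1).inv h1.ne'
      refine h2.congr_deriv ?_
      field_simp
    have hint := intervalIntegral.integral_eq_sub_of_hasDerivAt hderiv
      (by
        refine ContinuousOn.intervalIntegrable ?_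
        rw [uIcc_of_le (ha1 i)]
        exact hcont i)
    rw [e1, ← intervalIntegral.integral_of_le (ha1 i), hint]
    have h1 := hpos _ (ha i) (ha1 i)
    have h2 : 0 ≤ (1 - Real.log (1 / ((i : ℝ) + 1)))⁻¹ := by positivity
    have h3 : (1 - Real.log 1)⁻¹ = 1 := by simp
    linarith

theorem hr_int (M : ℝ) : IntegrableOn (hr M) (ball 0 1) := by
  have h := (integrableOn_fun_norm_addHaar (volume : Measure V)
    (f := fun s : ℝ => M / ph s ^ 2 / s) (r := 1)).2 (by
    have h1 : Module.finrank ℝ V = 3 := by simp [V]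
    rw [h1]
    have h2 : IntegrableOn (fun s : ℝ => M * (s * (1 - Real.log s) ^ 2)⁻¹) (Ioo 0 1) :=
      (int_log.mono_set Ioo_subset_Ioc_self).const_mul M
    refine h2.congr_fun (fun s hs => ?_) measurableSet_Ioo
    have h0 : 0 < s := hs.1
    have hl : Real.log s ≤ 0 := Real.log_nonpos h0.le hs.2.le
    have h3 : 0 < 1 - Real.log s := by linarith
    simp only [smul_eq_mul, ph]
    rw [abs_of_nonpos hl]
    have h4 : 1 + -Real.log s ≠ 0 := by
      have : 1 + -Real.log s = 1 - Real.log s := by ring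
      rw [this]; exact h3.ne'
    have h5 : 1 - Real.log s ≠ 0 := h3.ne'
    field_simp
    ring)
  exact h

theorem hr_int' (M : ℝ) {S : ℝ} (hS : S < 1) : IntegrableOn (hr M) (closedBall 0 S) :=
  (hr_int M).mono_set fun y hy => by
    rw [mem_closedBall_zero_iff] at hy
    rw [mem_ball_zero_iff]
    exact hy.trans_lt hS

theorem hr_small (M μ : ℝ) (hμ : 0 < μ) : ∃ S : ℝ, 0 < S ∧ S < 1 ∧
    ∫ y in closedBall (0 : V) S, hr M y ≤ μ := by
  have hlim := tendsto_setIntegral_of_antitone (μ := volume) (f := hr M)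
    (s := fun n : ℕ => closedBall (0 : V) (1 / ((n : ℝ) + 2)))
    (fun n => isClosed_closedBall.measurableSet)
    (fun n k hnk => closedBall_subset_closedBall (by
      have : (n : ℝ) ≤ k := by exact_mod_cast hnk
      exact one_div_le_one_div_of_le (by positivity) (by linarith)))
    ⟨0, by
      refine hr_int' M ?_
      norm_num⟩
  have h0 : ∫ y in ⋂ n : ℕ, closedBall (0 : V) (1 / ((n : ℝ) + 2)), hr M y = 0 := by
    have hsub : (⋂ n : ℕ, closedBall (0 : V) (1 / ((n : ℝ) + 2))) ⊆ {0} := by
      intro y hy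
      rw [mem_iInter] at hy
      have h1 : ∀ n : ℕ, ‖y‖ ≤ 1 / ((n : ℝ) + 1) := fun n => by
        have := hy n
        rw [mem_closedBall_zero_iff] at this
        refine this.trans (one_div_le_one_div_of_le (by positivity) (by linarith))
      have h2 : ‖y‖ ≤ 0 := ge_of_tendsto' tendsto_one_div_add_atTop_nhds_zero_nat h1
      simpa using norm_le_zero_iff.1 h2
    exact setIntegral_measure_zero _ (measure_mono_null hsub (measure_singleton _))
  rw [h0] at hlim
  obtain ⟨n, hn⟩ := (hlim.eventually (gt_mem_nhds hμ)).exists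
  refine ⟨1 / ((n : ℝ) + 2), by positivity, ?_, hn.le⟩
  rw [div_lt_one (by positivity)]
  have : (0 : ℝ) ≤ n := by positivity
  linarith

theorem hr_trans (M : ℝ) (x : V) (S : ℝ) :
    ∫ y in closedBall x S, hr M (y - x) = ∫ y in closedBall (0 : V) S, hr M y := by
  have h3 : MeasurePreserving (fun y : V => y - x) volume volume :=
    measurePreserving_sub_right volume x
  have h4 := h3.setIntegral_preimage_emb (MeasurableEquiv.subRight x).measurableEmbedding
    (hr M) (closedBall (0 : V) S)
  rw [← h4]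
  congr 2
  ext y
  simp [mem_closedBall, dist_eq_norm]

theorem hr_trans_int (M : ℝ) (x : V) {S : ℝ} (hS : S < 1) :
    IntegrableOn (fun y => hr M (y - x)) (closedBall x S) := by
  have h3 : MeasurePreserving (fun y : V => y - x) volume volume :=
    measurePreserving_sub_right volume x
  have h4 := (h3.integrableOn_comp_preimage (MeasurableEquiv.subRight x).measurableEmbedding
    (s := closedBall (0 : V) S) (f := hr M)).2 (hr_int' M hS)
  refine h4.mono_set fun y hy => ?_
  rw [mem_closedBall, dist_eq_norm] at hy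
  rw [mem_preimage, mem_closedBall_zero_iff]
  exact hy

theorem stmEx : StmEx := by
  intro T₀ T a R M hM
  have hρ : ∀ t ∈ Ioo T₀ T, ∀ y : V, 0 < ‖y - a‖ + √(T - t) := by
    intro t ht y
    have : 0 < √(T - t) := Real.sqrt_pos.mpr (by linarith [ht.2])
    positivity
  have hcont : ∀ t ∈ Ioo T₀ T, Continuous (fun y : V => M / ((‖y - a‖ + √(T - t)) *
      (1 + |Real.log (‖y - a‖ + √(T - t))|)) ^ 2) := by
    intro t ht
    have h1 : Continuous fun y : V => ‖y - a‖ + √(T - t) := by fun_prop
    have h2 : Continuous fun y : V => Real.log (‖y - a‖ + √(T - t)) :=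
      h1.log fun y => (hρ t ht y).ne'
    refine continuous_const.div ((h1.mul (continuous_const.add h2.abs)).pow 2) fun y => ?_
    have := hρ t ht y
    positivity
  refine ⟨hcont, fun t _ y => by positivity, ?_⟩
  intro μ hμ
  obtain ⟨S₀, hS₀, hS₁, hJ⟩ := hr_small M (μ / 2) (by positivity)
  refine ⟨S₀, hS₀, fun t ht x S hS hSS _ => ?_⟩
  have hS1 : S < 1 := hSS.trans_lt hS₁
  have hJS : ∫ y in closedBall (0 : V) S, hr M y ≤ μ / 2 :=
    (setIntegral_mono_set (hr_int' M hS₁) (Eventually.of_forall fun y => hr_nonneg hM y)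
      (closedBall_subset_closedBall hSS).eventuallyLE).trans hJ
  have hind : Integrable ((closedBall a S).indicator fun y => hr M (y - a)) :=
    (hr_trans_int M a hS1).integrable_indicator isClosed_closedBall.measurableSet
  have hgi : IntegrableOn (fun y => hr M (y - x) +
      (closedBall a S).indicator (fun y => hr M (y - a)) y) (closedBall x S) :=
    (hr_trans_int M x hS1).add hind.integrableOn
  have hne : ∀ᵐ y : V, y ≠ a := by simp [ae_iff]
  have hle : ∫ y in closedBall x S, (M / ((‖y - a‖ + √(T - t)) *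
      (1 + |Real.log (‖y - a‖ + √(T - t))|)) ^ 2) / ‖y - x‖ ≤
      ∫ y in closedBall x S, (hr M (y - x) +
        (closedBall a S).indicator (fun y => hr M (y - a)) y) := by
    refine integral_mono_of_nonneg (Eventually.of_forall fun y => by
      simp only [Pi.zero_apply]; positivity) hgi ?_
    refine (ae_restrict_iff' isClosed_closedBall.measurableSet).2 ?_
    filter_upwards [hne] with y hy hyS
    rw [mem_closedBall, dist_eq_norm] at hyS
    have hya : 0 < ‖y - a‖ := norm_pos_iff.mpr (sub_ne_zero.mpr hy)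
    have h1 : M / ph (‖y - a‖ + √(T - t)) ^ 2 ≤ M / ph ‖y - a‖ ^ 2 :=
      F_anti hM hya (by have := Real.sqrt_nonneg (T - t); linarith)
    have hx0 : 0 ≤ hr M (y - x) := hr_nonneg hM _
    have ha0 : 0 ≤ (closedBall a S).indicator (fun y => hr M (y - a)) y :=
      indicator_nonneg (fun y _ => hr_nonneg hM _) y
    show M / ph (‖y - a‖ + √(T - t)) ^ 2 / ‖y - x‖ ≤ _
    rcases le_or_gt ‖y - a‖ ‖y - x‖ with hc | hc
    · have h2 : y ∈ closedBall a S := by
        rw [mem_closedBall, dist_eq_norm]; exact hc.trans hyS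
      rw [indicator_of_mem h2]
      have h3 : M / ph (‖y - a‖ + √(T - t)) ^ 2 / ‖y - x‖ ≤ hr M (y - a) := by
        unfold hr
        have h4 : 0 ≤ M / ph ‖y - a‖ ^ 2 := by positivity
        gcongr
      linarith
    · rcases eq_or_ne y x with rfl | hyx
      · have h6 : M / ph (‖y - a‖ + √(T - t)) ^ 2 / ‖y - y‖ = 0 := by
          rw [sub_self, norm_zero, div_zero]
        linarith
      · have hyx' : 0 < ‖y - x‖ := norm_pos_iff.mpr (sub_ne_zero.mpr hyx)
        have h3 : M / ph (‖y - a‖ + √(T - t)) ^ 2 / ‖y - x‖ ≤ hr M (y - x) := by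
          unfold hr
          have h4 : M / ph ‖y - a‖ ^ 2 ≤ M / ph ‖y - x‖ ^ 2 := F_anti hM hyx' hc.le
          exact div_le_div_of_nonneg_right (h1.trans h4) hyx'.le
        linarith
  refine hle.trans ?_
  rw [integral_add (hr_trans_int M x hS1) hind.integrableOn, hr_trans]
  have h5 : ∫ y in closedBall x S, (closedBall a S).indicator (fun y => hr M (y - a)) y ≤ μ / 2 := by
    refine (setIntegral_le_integral hind (Eventually.of_forall fun y =>
      indicator_nonneg (fun y _ => hr_nonneg hM _) y)).trans ?_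
    rw [integral_indicator isClosed_closedBall.measurableSet, hr_trans]
    exact hJS
  linarith

end Pool.Agent.Q224.VL
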